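import Pool.Agent.W719.AR.Geo
import Pool.Agent.W554.HT.Gmax

/-!
The equations for the moduli at a hinge.
-/

set_option autoImplicit false
set_option linter.unusedVariables false

namespace Pool.Agent.W930.AR

open Pool.Agent.W711.HT Pool.Agent.W719.AR
open scoped Real

/-- half angle form of the norm of `1 - exp` -/
lemma n1 (z : ℂ) (hz : 1 - Complex.exp (2 * Complex.I * z) ≠ 0) :
    Complex.sin z ≠ 0 ∧ Real.log ‖1 - Complex.exp (2 * Complex.I * z)‖ =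
      Real.log 2 + Real.log ‖Complex.sin z‖ - z.im := by
  have e : 1 - Complex.exp (2 * Complex.I * z) =
      -(2 * Complex.I) * Complex.sin z * Complex.exp (Complex.I * z) := by
    have h1 : Complex.exp (2 * Complex.I * z) = Complex.exp (Complex.I * z) ^ 2 := by
      rw [← Complex.exp_nat_mul]
      congr 1
      push_cast
      ring
    have h2 : Complex.exp (-z * Complex.I) * Complex.exp (Complex.I * z) = 1 := by
      rw [← Complex.exp_add]
      have : -z * Complex.I + Complex.I * z = 0 := by ring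
      rw [this, Complex.exp_zero]
    have h3 : Complex.exp (z * Complex.I) = Complex.exp (Complex.I * z) := by rw [mul_comm]
    unfold Complex.sin
    rw [h1, h3]
    linear_combination (-1) * h2 + (Complex.exp (-z * Complex.I) * Complex.exp (Complex.I * z) -
      Complex.exp (Complex.I * z) ^ 2) * Complex.I_sq
  have hs : Complex.sin z ≠ 0 := by
    intro h
    rw [h] at e
    apply hz
    rw [e]
    ring
  refine ⟨hs, ?_⟩
  rw [e, norm_mul, norm_mul, norm_neg, norm_mul, Complex.norm_I, Complex.norm_exp]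
  have h4 : (0 : ℝ) < ‖Complex.sin z‖ := norm_pos_iff.2 hs
  have h5 : (Complex.I * z).re = -z.im := by simp
  rw [Real.log_mul (by simpa using hs) (Real.exp_ne_zero _), Real.log_mul (by simp) h4.ne',
    Real.log_exp, h5]
  simp
  ring

lemma cos_re {z : ℂ} (hz : ‖z‖ ≤ 1 / 10) : 0 < (Complex.cos z).re := by
  have h1 : |z.re| ≤ 1 / 10 := (Complex.abs_re_le_norm z).trans hz
  have h2 := abs_le.1 h1
  have h3 : (Complex.cos z).re = Real.cos z.re * Real.cosh z.im := by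
    rw [Complex.cos_eq]
    simp [← Complex.ofReal_cos, ← Complex.ofReal_cosh, ← Complex.ofReal_sin, ← Complex.ofReal_sinh]
  rw [h3]
  exact mul_pos (Real.cos_pos_of_mem_Ioo ⟨by linarith [Real.pi_gt_three],
    by linarith [Real.pi_gt_three]⟩) (Real.cosh_pos _)

lemma im_pos_of {c : ℂ} (h1 : 0 < Complex.arg c) (h2 : Complex.arg c < π) : 0 < c.im := by
  have hc : c ≠ 0 := by
    rintro rfl
    simp at h1
  have h3 := Complex.norm_mul_sin_arg c
  rw [← h3]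
  exact mul_pos (norm_pos_iff.2 hc) (Real.sin_pos_of_pos_of_lt_pi h1 h2)

lemma hp_symm {ψ ψ' u : ℂ} (h : HP ψ ψ' u) : HP ψ' ψ u :=
  ⟨h.ne', h.ne, h.sm', h.sm, h.un, by rw [h.eq, mul_comm, add_right_comm]⟩

/-- nonvanishing at a vertex -/
lemma nz (hS : S_SHP) {ψ ψ' u : ℂ} (h : HP ψ ψ' u) :
    (0 < ((1 - YY ψ * WW ψ u) / (1 - YY ψ)).im ∧
      0 < ((1 - WW ψ u) / (1 - YY ψ * WW ψ u)).im) ∧
    1 - YY ψ ≠ 0 ∧ 1 - YY ψ * WW ψ u ≠ 0 ∧ 1 - WW ψ u ≠ 0 := by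
  obtain ⟨p1, p2, p3, p4, p5, p6, p7, p8⟩ := (hS ψ ψ' u h).1
  have i1 : 0 < ((1 - YY ψ * WW ψ u) / (1 - YY ψ)).im := by
    apply im_pos_of p1
    simp only [fla, flS] at p1 p2 p3 p4
    linarith
  have i2 : 0 < ((1 - WW ψ u) / (1 - YY ψ * WW ψ u)).im := by
    apply im_pos_of p5
    simp only [fla, flS] at p5 p6 p7 p8
    linarith
  refine ⟨⟨i1, i2⟩, ?_, ?_, ?_⟩
  · intro h0
    rw [h0] at i1
    simp at i1
  · intro h0
    rw [h0] at i1
    simp at i1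
  · intro h0
    rw [h0] at i2
    simp at i2

lemma WW_eq (ψ u : ℂ) : WW ψ u = Complex.exp (2 * Complex.I * tt ψ u) := by
  unfold WW tt
  congr 1
  field_simp

lemma YY_eq (ψ : ℂ) : YY ψ = Complex.exp (2 * Complex.I * (-(ψ / 2))) := by
  unfold YY
  congr 1
  ring

lemma YW_eq (ψ u : ℂ) : YY ψ * WW ψ u = Complex.exp (2 * Complex.I * (tt ψ u - ψ / 2)) := by
  rw [WW_eq, YY_eq, ← Complex.exp_add]
  congr 1
  ring

lemma tt_im (ψ u : ℂ) : (tt ψ u).im = -((Lg u ψ).re / 2) := by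
  have h : tt ψ u = -(Complex.I * Lg u ψ) / 2 := by
    unfold tt
    rw [div_eq_div_iff (mul_ne_zero two_ne_zero Complex.I_ne_zero) two_ne_zero]
    linear_combination (2 * Lg u ψ) * Complex.I_sq
  rw [h]
  have : (-(Complex.I * Lg u ψ) / 2).im = (-(Complex.I * Lg u ψ)).im / 2 := by
    rw [show (2 : ℂ) = ((2 : ℝ) : ℂ) by norm_num, Complex.div_ofReal_im]
  rw [this]
  simp
  ring

lemma half_im (ψ : ℂ) : (ψ / 2).im = ψ.im / 2 := by
  rw [show (2 : ℂ) = ((2 : ℝ) : ℂ) by norm_num, Complex.div_ofReal_im]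

/-- moduli of the three sides -/
lemma sides (hS : S_SHP) {ψ ψ' u : ℂ} (h : HP ψ ψ' u) :
    Complex.sin (tt ψ u) ≠ 0 ∧ Complex.sin (ψ / 2) ≠ 0 ∧ Complex.sin (tt ψ u - ψ / 2) ≠ 0 ∧
    Real.log ‖1 - WW ψ u‖ = Real.log 2 + Real.log ‖Complex.sin (tt ψ u)‖ + (Lg u ψ).re / 2 ∧
    Real.log ‖1 - YY ψ‖ = Real.log 2 + Real.log ‖Complex.sin (ψ / 2)‖ + ψ.im / 2 ∧
    Real.log ‖1 - YY ψ * WW ψ u‖ = Real.log 2 + Real.log ‖Complex.sin (tt ψ u - ψ / 2)‖ +
      ((Lg u ψ).re / 2 + ψ.im / 2) := by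
  obtain ⟨-, hY, hYW, hW⟩ := nz hS h
  rw [WW_eq] at hW
  rw [YY_eq] at hY
  rw [YW_eq] at hYW
  obtain ⟨s1, l1⟩ := n1 _ hW
  obtain ⟨s2, l2⟩ := n1 _ hY
  obtain ⟨s3, l3⟩ := n1 _ hYW
  rw [Complex.sin_neg, neg_ne_zero] at s2
  refine ⟨s1, s2, s3, ?_, ?_, ?_⟩
  · rw [WW_eq, l1, tt_im]
    ring
  · rw [YY_eq, l2, Complex.sin_neg, norm_neg, Complex.neg_im, half_im]
    ring
  · rw [YW_eq, l3, Complex.sub_im, tt_im, half_im]
    ring

theorem lsn : S_SHP → S_HLOC → S_LSN := by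
  intro hS hL ψ ψ' u h
  have h' := hp_symm h
  obtain ⟨⟨i1, i2⟩, hY, hYW, hW⟩ := nz hS h
  obtain ⟨-, hY', hYW', hW'⟩ := nz hS h'
  obtain ⟨s1, s2, s3, l1, l2, l3⟩ := sides hS h
  obtain ⟨s1', s2', s3', l1', l2', l3'⟩ := sides hS h'
  obtain ⟨-, -, q3, q4, q5⟩ := hL ψ ψ' u h
  -- cosines
  have c1 : Complex.cos (ψ / 2) ≠ 0 := by
    intro h0
    have h1 := Complex.cos_sq (ψ / 2)
    rw [h0, show 2 * (ψ / 2) = ψ by ring] at h1
    have h2 := cos_re h.sm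
    have h3 : Complex.cos ψ = -1 := by linear_combination (-2) * h1
    rw [h3] at h2
    norm_num at h2
  have c1' : Complex.cos (ψ' / 2) ≠ 0 := by
    intro h0
    have h1 := Complex.cos_sq (ψ' / 2)
    rw [h0, show 2 * (ψ' / 2) = ψ' by ring] at h1
    have h2 := cos_re h.sm'
    have h3 : Complex.cos ψ' = -1 := by linear_combination (-2) * h1
    rw [h3] at h2
    norm_num at h2
  have c2 : Complex.cos (ψ / 2) ^ 2 + Complex.cos (ψ' / 2) ^ 2 ≠ 0 := by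
    intro h0
    have h1 := Complex.cos_sq (ψ / 2)
    have h1' := Complex.cos_sq (ψ' / 2)
    rw [show 2 * (ψ / 2) = ψ by ring] at h1
    rw [show 2 * (ψ' / 2) = ψ' by ring] at h1'
    have h3 : Complex.cos ψ + Complex.cos ψ' = -2 := by
      rw [h1, h1'] at h0
      linear_combination 2 * h0
    have h4 := cos_re h.sm
    have h5 := cos_re h.sm'
    have h6 := congrArg Complex.re h3
    rw [Complex.add_re] at h6
    norm_num at h6
    linarith
  -- the modulus of sin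
  have hcn : 0 < ‖Complex.cos (ψ / 2)‖ := norm_pos_iff.2 c1
  have hcn' : 0 < ‖Complex.cos (ψ' / 2)‖ := norm_pos_iff.2 c1'
  have hsn : 0 < ‖Complex.sin (ψ / 2)‖ := norm_pos_iff.2 s2
  have hsn' : 0 < ‖Complex.sin (ψ' / 2)‖ := norm_pos_iff.2 s2'
  have q3n : Real.log ‖Complex.sin (tt ψ u)‖ = Real.log ‖Complex.sin (ψ / 2)‖ +
      Real.log ‖Complex.cos (ψ' / 2)‖ - Real.log ‖Complex.cos (ψ / 2)‖ := by
    rw [q3, norm_div, norm_mul, norm_mul, norm_neg, Complex.norm_I, one_mul,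
      Real.log_div (mul_pos hsn hcn').ne' hcn.ne', Real.log_mul hsn.ne' hcn'.ne']
  -- the ratio
  have q6 : Complex.sin (tt ψ u + ψ / 2) * Complex.sin (tt ψ u - ψ / 2) *
      Complex.cos (ψ / 2) ^ 2 = -(Complex.sin (ψ / 2) ^ 2 *
        (Complex.cos (ψ / 2) ^ 2 + Complex.cos (ψ' / 2) ^ 2)) := by
    have h1 : Complex.sin (tt ψ u + ψ / 2) * Complex.sin (tt ψ u - ψ / 2) =
        Complex.sin (tt ψ u) ^ 2 - Complex.sin (ψ / 2) ^ 2 := by
      rw [Complex.sin_add, Complex.sin_sub]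
      have h2 := Complex.sin_sq_add_cos_sq (tt ψ u)
      have h3 := Complex.sin_sq_add_cos_sq (ψ / 2)
      linear_combination (-Complex.sin (ψ / 2) ^ 2) * h2 + Complex.sin (tt ψ u) ^ 2 * h3
    have h4 : Complex.sin (tt ψ u) * Complex.cos (ψ / 2) =
        -Complex.I * Complex.sin (ψ / 2) * Complex.cos (ψ' / 2) := by
      rw [q3]
      field_simp
    have h5 : Complex.sin (tt ψ u) ^ 2 * Complex.cos (ψ / 2) ^ 2 =
        -(Complex.sin (ψ / 2) ^ 2 * Complex.cos (ψ' / 2) ^ 2) := by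
      rw [← mul_pow, h4]
      linear_combination (Complex.sin (ψ / 2) ^ 2 * Complex.cos (ψ' / 2) ^ 2) * Complex.I_sq
    rw [h1]
    linear_combination h5
  have hp : Complex.sin (tt ψ u + ψ / 2) ≠ 0 := by
    intro h0
    rw [h0] at q6
    have h1 : Complex.sin (ψ / 2) ^ 2 *
        (Complex.cos (ψ / 2) ^ 2 + Complex.cos (ψ' / 2) ^ 2) = 0 := by
      linear_combination q6
    exact mul_ne_zero (pow_ne_zero 2 s2) c2 h1
  have q7 : Complex.sin (tt ψ' u - ψ' / 2) * Complex.sin (ψ / 2) * Complex.cos (ψ' / 2) =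
      Complex.sin (tt ψ u - ψ / 2) * Complex.sin (ψ' / 2) * Complex.cos (ψ / 2) := by
    have h1 : (Complex.sin (tt ψ u + ψ / 2) * Complex.cos (ψ / 2)) *
        (Complex.sin (tt ψ' u - ψ' / 2) * Complex.sin (ψ / 2) * Complex.cos (ψ' / 2)) =
        (Complex.sin (tt ψ u + ψ / 2) * Complex.cos (ψ / 2)) *
        (Complex.sin (tt ψ u - ψ / 2) * Complex.sin (ψ' / 2) * Complex.cos (ψ / 2)) := by
      linear_combination Complex.sin (ψ / 2) * q4 - Complex.sin (ψ' / 2) * q6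
    exact mul_left_cancel₀ (mul_ne_zero hp c1) h1
  have q7n : Real.log ‖Complex.sin (tt ψ' u - ψ' / 2)‖ + Real.log ‖Complex.sin (ψ / 2)‖ +
      Real.log ‖Complex.cos (ψ' / 2)‖ = Real.log ‖Complex.sin (tt ψ u - ψ / 2)‖ +
      Real.log ‖Complex.sin (ψ' / 2)‖ + Real.log ‖Complex.cos (ψ / 2)‖ := by
    have h1 := congrArg (fun z : ℂ => Real.log ‖z‖) q7
    simp only [norm_mul] at h1
    have t1 : 0 < ‖Complex.sin (tt ψ' u - ψ' / 2)‖ := norm_pos_iff.2 s3'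
    have t2 : 0 < ‖Complex.sin (tt ψ u - ψ / 2)‖ := norm_pos_iff.2 s3
    rw [Real.log_mul (mul_pos t1 hsn).ne' hcn'.ne', Real.log_mul t1.ne' hsn.ne',
      Real.log_mul (mul_pos t2 hsn').ne' hcn.ne', Real.log_mul t2.ne' hsn'.ne'] at h1
    exact h1
  -- the shapes
  obtain ⟨-, -, -, -, -, -, -, t1, t2⟩ := Pool.Agent.W554.HT.tri i1
  obtain ⟨-, -, -, -, -, -, -, t1', t2'⟩ := Pool.Agent.W554.HT.tri i2
  have hWn : WW ψ u ≠ 0 := Complex.exp_ne_zero _
  have hYn : YY ψ ≠ 0 := Complex.exp_ne_zero _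
  have lW : Real.log ‖WW ψ u‖ = (Lg u ψ).re := by
    unfold WW
    rw [Complex.norm_exp, Real.log_exp]
  have lY : Real.log ‖YY ψ‖ = ψ.im := by
    unfold YY
    rw [Complex.norm_exp, Real.log_exp]
    simp
  have nY : ‖1 - YY ψ‖ ≠ 0 := norm_ne_zero_iff.2 hY
  have nW : ‖1 - WW ψ u‖ ≠ 0 := norm_ne_zero_iff.2 hW
  have nYW : ‖1 - YY ψ * WW ψ u‖ ≠ 0 := norm_ne_zero_iff.2 hYW
  have nW0 : ‖WW ψ u‖ ≠ 0 := norm_ne_zero_iff.2 hWn
  have nY0 : ‖YY ψ‖ ≠ 0 := norm_ne_zero_iff.2 hYn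
  refine ⟨?_, ?_, ?_, ?_, ?_, ?_⟩
  · refine t2.trans ?_
    have e : 1 - (1 - YY ψ * WW ψ u) / (1 - YY ψ) = -(YY ψ * (1 - WW ψ u)) / (1 - YY ψ) := by
      rw [eq_div_iff hY, sub_mul, div_mul_cancel₀ _ hY]
      ring
    rw [e, norm_div, norm_neg, norm_mul, Real.log_div (mul_ne_zero nY0 nW) nY,
      Real.log_mul nY0 nW, lY]
  · refine t1.trans ?_
    rw [norm_div, Real.log_div nYW nY]
  · refine t2'.trans ?_
    have e : 1 - (1 - WW ψ u) / (1 - YY ψ * WW ψ u) = (WW ψ u * (1 - YY ψ)) /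
        (1 - YY ψ * WW ψ u) := by
      rw [eq_div_iff hYW, sub_mul, div_mul_cancel₀ _ hYW]
      ring
    rw [e, norm_div, norm_mul, Real.log_div (mul_ne_zero nW0 nY) nYW,
      Real.log_mul nW0 nY, lW]
  · refine t1'.trans ?_
    rw [norm_div, Real.log_div nW nYW]
  · rw [l1, l3, l3', l2', q3n]
    linarith
  · rw [l1, l2, q3n]
    ring

end Pool.Agent.W930.AR
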